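import Pool.Agent.H362.SV.Loc

set_option autoImplicit false

/-! # Small values of zeta: the measure of the set where zeta is small -/

namespace Pool.Agent.H362.SV

open Filter Topology MeasureTheory Complex Metric
open Pool.Agent.H362.LD (Sz Sz_finite unif t_ZUP)

lemma log_le_small {c a : ℝ} (hc : 0 < c) (ha : 0 < a) : ∀ᶠ T : ℝ in atTop, c ≤ Real.log T ^ a :=
  ((tendsto_rpow_atTop ha).comp Real.tendsto_log_atTop).eventually_ge_atTop c

lemma log_lin {c : ℝ} (hc : 0 < c) : ∀ᶠ T : ℝ in atTop, c * Real.log T ≤ T := by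
  have h := Real.isLittleO_log_id_atTop.bound (show (0:ℝ) < 1 / c by positivity)
  filter_upwards [h, eventually_ge_atTop (1:ℝ)] with T h1 h2
  have h0 : 0 ≤ Real.log T := Real.log_nonneg h2
  rw [Real.norm_of_nonneg h0, id, Real.norm_of_nonneg (by linarith)] at h1
  calc c * Real.log T ≤ c * (1 / c * T) := by gcongr
    _ = T := by field_simp

/-- **small values** -/
theorem small : ∃ C : ℝ, 0 < C ∧ ∀ ε : ℝ, 0 < ε → ∀ᶠ T : ℝ in atTop, ∀ δ : ℝ, 0 < δ → δ ≤ Real.log T ^ (-C) →
    δ * (T * Real.log T ^ (1 / 4 - ε)) ≤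
      volume.real {t : ℝ | t ∈ Set.Icc T (2 * T) ∧ ‖riemannZeta (1 / 2 + t * I)‖ ≤ δ} := by
  classical
  obtain ⟨A1, hA1, hZ⟩ := t_ZUP 1 one_pos
  obtain ⟨d0, hd0, hU⟩ := unif
  set d1 : ℝ := min d0 1 with hd1
  have hd1pos : 0 < d1 := lt_min hd0 one_pos
  have hd1a : d1 ≤ d0 := min_le_left _ _
  have hd1b : d1 ≤ 1 := min_le_right _ _
  refine ⟨A1 + 3, by linarith, fun ε hε => ?_⟩
  set e : ℝ := min (ε / 3) (1 / 8) with he
  have he0 : 0 < e := lt_min (by positivity) (by norm_num)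
  have he1 : 3 * e ≤ ε := by have := min_le_left (ε / 3) (1 / 8 : ℝ); rw [← he] at this; linarith
  have he2 : e ≤ 1 / 8 := min_le_right _ _
  filter_upwards [hZ, hU 1 e he0, eventually_ge_atTop (100:ℝ),
    Real.tendsto_log_atTop.eventually_ge_atTop (max 24 (4 / d1)),
    log_le_small (c := 6 / d1) (a := 5 / 8) (by positivity) (by norm_num),
    log_le_small (c := 2) (a := e) (by norm_num) he0,
    log_lin (c := 8) (by norm_num)] with T hZT hUT hT100 hLbig hL58 hLe hLlin
  obtain ⟨E, hEm, hEsub, hEvol, hEz⟩ := hZT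
  intro δ hδ0 hδ1
  set L : ℝ := Real.log T with hL
  have hL24 : 24 ≤ L := (le_max_left _ _).trans hLbig
  have hLd : 4 / d1 ≤ L := (le_max_right _ _).trans hLbig
  have hL0 : 0 < L := by linarith
  have hL1 : 1 ≤ L := by linarith
  have hT0 : 0 < T := by linarith
  -- the zeros
  set S : Finset ℂ := (Sz_finite d0 (-(1 / 2)) e T).toFinset with hS
  have hmem : ∀ s ∈ S, s ∈ Sz d0 (-(1 / 2)) e T := fun s hs => by
    rw [hS, Set.Finite.mem_toFinset] at hs; exact hs
  have hcard : T * L ^ (3 / 4 - e) ≤ (S.card : ℝ) := by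
    have h1 := hUT (-(1 / 2)) (by rw [abs_neg, abs_of_pos] <;> norm_num)
    rw [Set.ncard_eq_toFinset_card _ (Sz_finite d0 (-(1 / 2)) e T)] at h1
    refine le_trans (le_of_eq ?_) h1
    congr 2
    ring
  have him : ∀ s ∈ S, s = 1 / 2 + s.im * I := fun s hs => by
    apply Complex.ext
    · simp [(hmem s hs).2.1]
    · simp
  have hinj : ∀ x ∈ S, ∀ y ∈ S, x.im = y.im → x = y := fun x hx y hy h => by
    rw [him x hx, him y hy, h]
  have hsep : ∀ x ∈ S, ∀ y ∈ S, x ≠ y → d1 / L ≤ |x.im - y.im| := by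
    intro x hx y hy hxy
    have h1 := (hmem y hy).2.2.2.2.2.1 x (hmem x hx).1 (by rw [(hmem x hx).2.1]; norm_num)
      (by rw [(hmem x hx).2.1]; norm_num) hxy
    have h2 : ‖x - y‖ = |x.im - y.im| := by
      have h3 : x - y = ((x.im - y.im : ℝ) : ℂ) * I := by
        nth_rewrite 1 [him x hx, him y hy]
        push_cast; ring
      rw [h3, norm_mul, Complex.norm_I, mul_one, Complex.norm_real, Real.norm_eq_abs]
    rw [← h2]
    refine le_trans ?_ h1
    exact div_le_div_of_nonneg_right hd1a hL0.le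
  set r0 : ℝ := d1 / (4 * L) with hr0
  have hr0pos : 0 < r0 := by positivity
  -- the bad zeros
  set Gd : Finset ℂ := S.filter fun s => ∃ t : ℝ, |t - s.im| ≤ r0 ∧ T + 1 ≤ t ∧ t ≤ 2 * T - 1 ∧ t ∉ E with hGd
  set Bd : Finset ℂ := S.filter fun s => ¬ ∃ t : ℝ, |t - s.im| ≤ r0 ∧ T + 1 ≤ t ∧ t ≤ 2 * T - 1 ∧ t ∉ E with hBd
  have hr0s : r0 ≤ 1 / 4 := by
    rw [hr0, div_le_div_iff₀ (by positivity) (by norm_num)]
    nlinarith
  have hEtop : volume E ≠ ⊤ := measure_ne_top_of_subset hEsub measure_Icc_lt_top.ne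
  have hbadcard : (Bd.card : ℝ) ≤ T * L ^ (3 / 4 - e) / 2 := by
    set B : Set ℝ := E ∪ (Set.Icc (T - 1) (T + 1) ∪ Set.Icc (2 * T - 1) (2 * T + 1)) with hB
    have hBtop : volume B ≠ ⊤ :=
      measure_union_ne_top hEtop (measure_union_ne_top measure_Icc_lt_top.ne measure_Icc_lt_top.ne)
    have hBvol : volume.real B ≤ T / L + 4 := by
      have h1 : volume.real B ≤ volume.real E + (volume.real (Set.Icc (T - 1) (T + 1)) +
          volume.real (Set.Icc (2 * T - 1) (2 * T + 1))) :=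
        (measureReal_union_le _ _).trans (add_le_add le_rfl (measureReal_union_le _ _))
      have h2 : volume.real (Set.Icc (T - 1) (T + 1)) = 2 := by
        rw [Real.volume_real_Icc_of_le (by linarith)]; ring
      have h3 : volume.real (Set.Icc (2 * T - 1) (2 * T + 1)) = 2 := by
        rw [Real.volume_real_Icc_of_le (by linarith)]; ring
      rw [h2, h3] at h1
      rw [Real.rpow_one] at hEvol
      linarith
    have h1 := sep_volume (S := Bd.image Complex.im) (w := r0) (D := d1 / L) (B := B) hr0pos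
      (by
        rw [hr0]
        have : 2 * (d1 / (4 * L)) = d1 / L / 2 := by field_simp; ring
        rw [this]
        exact half_lt_self (by positivity))
      (by
        intro x hx y hy hxy
        rw [Finset.mem_image] at hx hy
        obtain ⟨s, hs, rfl⟩ := hx
        obtain ⟨s', hs', rfl⟩ := hy
        exact hsep s (Finset.mem_filter.1 hs).1 s' (Finset.mem_filter.1 hs').1 fun h => hxy (by rw [h]))
      (by
        intro x hx t ht
        rw [Finset.mem_image] at hx
        obtain ⟨s, hs, rfl⟩ := hx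
        rw [hBd, Finset.mem_filter] at hs
        obtain ⟨hs1, hs2⟩ := hs
        push Not at hs2
        have g1 := (hmem s hs1).2.2.1
        have g2 := (hmem s hs1).2.2.2.1
        have g3 : |t - s.im| ≤ r0 := abs_le.2 ⟨by linarith [ht.1], by linarith [ht.2]⟩
        by_cases c1 : T + 1 ≤ t
        · by_cases c2 : t ≤ 2 * T - 1
          · exact Or.inl (hs2 t g3 c1 c2)
          · push Not at c2
            exact Or.inr (Or.inr ⟨c2.le, by linarith [ht.2]⟩)
        · push Not at c1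
          exact Or.inr (Or.inl ⟨by linarith [ht.1], c1.le⟩))
      hBtop
    rw [Finset.card_image_of_injOn (fun x hx y hy h => hinj x (Finset.mem_filter.1 hx).1 y
      (Finset.mem_filter.1 hy).1 h)] at h1
    have h2 : (Bd.card : ℝ) * (2 * r0) ≤ T / L + 4 := h1.trans hBvol
    have h3 : (Bd.card : ℝ) ≤ (T / L + 4) / (2 * r0) := by rwa [le_div_iff₀ (by positivity)]
    refine h3.trans ?_
    have h4 : (T / L + 4) / (2 * r0) = (2 * T + 8 * L) / d1 := by
      rw [hr0]; field_simp; ring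
    rw [h4, div_le_iff₀ hd1pos]
    have h5 : L ^ (5 / 8 : ℝ) ≤ L ^ (3 / 4 - e) := Real.rpow_le_rpow_of_exponent_le hL1 (by linarith)
    have h6 : 6 / d1 ≤ L ^ (3 / 4 - e) := hL58.trans h5
    rw [div_le_iff₀ hd1pos] at h6
    nlinarith
  have hgood : T * L ^ (3 / 4 - e) / 2 ≤ (Gd.card : ℝ) := by
    have h1 : (Gd.card : ℝ) + Bd.card = S.card := by
      rw [hGd, hBd]; exact_mod_cast Finset.card_filter_add_card_filter_not _
    linarith
  -- the intervals
  set w : ℝ := δ / (2 * L ^ (1 / 2 + e)) with hw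
  have hP : 1 ≤ L ^ (1 / 2 + e) := Real.one_le_rpow hL1 (by linarith)
  have hP0 : 0 < L ^ (1 / 2 + e) := by linarith
  have hwpos : 0 < w := by positivity
  have hwδ : w ≤ δ / 2 := by
    rw [hw]
    exact div_le_div_of_nonneg_left hδ0.le (by norm_num) (by linarith)
  have hwL : w ≤ L ^ (-(A1 + 3)) / 2 := by linarith
  have hA3 : L ^ (-(A1 + 3)) = L ^ (-(A1 + 2)) * L⁻¹ := by
    rw [← Real.rpow_neg_one, ← Real.rpow_add hL0]; congr 1; ring
  have hA2 : L ^ (-(A1 + 2)) ≤ L ^ (-(2:ℝ)) := Real.rpow_le_rpow_of_exponent_le hL1 (by linarith)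
  have hA2' : L ^ (-(2:ℝ)) = L⁻¹ * L⁻¹ := by
    rw [← Real.rpow_neg_one, ← Real.rpow_add hL0]; norm_num
  have hLinv : 0 < L⁻¹ := by positivity
  have hLinv1 : L⁻¹ ≤ 1 / 24 := by rw [inv_eq_one_div]; exact one_div_le_one_div_of_le (by norm_num) hL24
  have hw1 : w ≤ L⁻¹ * L⁻¹ * L⁻¹ / 2 := by
    refine hwL.trans ?_
    rw [hA3]
    have : L ^ (-(A1 + 2)) * L⁻¹ ≤ L⁻¹ * L⁻¹ * L⁻¹ := by
      rw [← hA2']
      exact mul_le_mul_of_nonneg_right hA2 hLinv.le
    linarith
  have hr0' : r0 = d1 / 4 * L⁻¹ := by rw [hr0]; field_simp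
  have hdL : L⁻¹ ≤ d1 / 4 := by
    rw [inv_le_comm₀ hL0 (by positivity), inv_div]; exact hLd
  have hwr : w < r0 := by
    rw [hr0']
    have : L⁻¹ * L⁻¹ * L⁻¹ ≤ L⁻¹ * L⁻¹ := by nlinarith [mul_pos hLinv hLinv]
    nlinarith [mul_pos hLinv hLinv]
  have hwR : w < 1 / (2 * L) := by
    have : 1 / (2 * L) = L⁻¹ / 2 := by field_simp
    rw [this]
    nlinarith [mul_pos hLinv hLinv, mul_pos (mul_pos hLinv hLinv) hLinv]
  have hfin : volume {t : ℝ | t ∈ Set.Icc T (2 * T) ∧ ‖riemannZeta (1 / 2 + t * I)‖ ≤ δ} ≠ ⊤ :=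
    measure_ne_top_of_subset (fun t ht => ht.1) measure_Icc_lt_top.ne
  have hmain := sep_volume (S := Gd.image Complex.im) (w := w) (D := d1 / L) hwpos
    (by
      have : d1 / L = 4 * r0 := by rw [hr0]; field_simp
      rw [this]; linarith)
    (by
      intro x hx y hy hxy
      rw [Finset.mem_image] at hx hy
      obtain ⟨s, hs, rfl⟩ := hx
      obtain ⟨s', hs', rfl⟩ := hy
      exact hsep s (Finset.mem_filter.1 hs).1 s' (Finset.mem_filter.1 hs').1 fun h => hxy (by rw [h]))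
    (B := {t : ℝ | t ∈ Set.Icc T (2 * T) ∧ ‖riemannZeta (1 / 2 + t * I)‖ ≤ δ})
    (by
      intro x hx t ht
      rw [Finset.mem_image] at hx
      obtain ⟨s, hs, rfl⟩ := hx
      rw [hGd, Finset.mem_filter] at hs
      obtain ⟨hs1, t0, ht0, ht1, ht2, htE⟩ := hs
      have hts : |t - s.im| ≤ w := abs_le.2 ⟨by linarith [ht.1], by linarith [ht.2]⟩
      have h0 := abs_le.1 ht0
      have h0' := abs_le.1 hts
      refine ⟨⟨by linarith [h0.1, h0.2, h0'.1, h0'.2], by linarith [h0.1, h0.2, h0'.1, h0'.2]⟩, ?_⟩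
      have hR : (0:ℝ) < 1 / (2 * L) := by positivity
      have hM : (0:ℝ) < L ^ A1 := Real.rpow_pos_of_pos hL0 _
      have hss := him s hs1
      have hball : ∀ z ∈ ball s (1 / (2 * L)), ‖riemannZeta z‖ ≤ L ^ A1 := by
        intro z hz
        refine hEz t0 ⟨ht1, ht2⟩ htE z ?_
        rw [mem_ball, dist_eq_norm] at hz
        have h1 : ‖s - (1 / 2 + t0 * I)‖ ≤ r0 := by
          have h2 : s - (1 / 2 + t0 * I) = ((s.im - t0 : ℝ) : ℂ) * I := by
            nth_rewrite 1 [hss]
            push_cast; ring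
          rw [h2, norm_mul, Complex.norm_I, mul_one, Complex.norm_real, Real.norm_eq_abs, abs_sub_comm]
          exact ht0
        have h3 : z - (1 / 2 + t0 * I) = (z - s) + (s - (1 / 2 + t0 * I)) := by ring
        rw [h3]
        refine (norm_add_le _ _).trans ?_
        have h4 : r0 ≤ 1 / (2 * L) := by
          rw [hr0, div_le_div_iff₀ (by positivity) (by positivity)]
          nlinarith
        have h5 : 1 / (2 * L) + 1 / (2 * L) = 1 / L := by field_simp; ring
        linarith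
      have hz : (1 / 2 + t * I : ℂ) ∈ ball s (1 / (2 * L)) := by
        rw [mem_ball, dist_eq_norm]
        have h2 : (1 / 2 + t * I : ℂ) - s = ((t - s.im : ℝ) : ℂ) * I := by
          nth_rewrite 1 [hss]
          push_cast; ring
        rw [h2, norm_mul, Complex.norm_I, mul_one, Complex.norm_real, Real.norm_eq_abs]
        linarith
      have hzn : ‖(1 / 2 + t * I : ℂ) - s‖ ≤ w := by
        have h2 : (1 / 2 + t * I : ℂ) - s = ((t - s.im : ℝ) : ℂ) * I := by
          nth_rewrite 1 [hss]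
          push_cast; ring
        rw [h2, norm_mul, Complex.norm_I, mul_one, Complex.norm_real, Real.norm_eq_abs]
        exact hts
      have hd : DifferentiableOn ℂ riemannZeta (ball s (1 / (2 * L))) := by
        intro z hz
        refine (differentiableAt_riemannZeta ?_).differentiableWithinAt
        rintro rfl
        rw [mem_ball, dist_eq_norm] at hz
        have h1 := Complex.abs_im_le_norm (1 - s)
        have h2 := (hmem s hs1).2.2.1
        rw [Complex.sub_im, Complex.one_im, zero_sub, abs_neg, abs_of_pos (by linarith)] at h1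
        have h3 : 1 / (2 * L) ≤ 1 := by rw [div_le_one (by positivity)]; linarith
        linarith
      have h1 := near hR hM hd hball (hmem s hs1).1 hz
      refine h1.trans ?_
      have h2 : ‖deriv riemannZeta s‖ ≤ L ^ (1 / 2 + e) := by
        refine (hmem s hs1).2.2.2.2.2.2.2.trans (le_of_eq ?_)
        congr 1; ring
      have h3 : ‖(1 / 2 + t * I : ℂ) - s‖ * (3 * L ^ A1 / (1 / (2 * L)) ^ 2) ≤ 1 := by
        have h4 : 3 * L ^ A1 / (1 / (2 * L)) ^ 2 = 12 * L ^ (A1 + 2) := by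
          rw [Real.rpow_add hL0, Real.rpow_two]; field_simp; ring
        rw [h4]
        calc ‖(1 / 2 + t * I : ℂ) - s‖ * (12 * L ^ (A1 + 2)) ≤
            (L ^ (-(A1 + 2)) * L⁻¹ / 2) * (12 * L ^ (A1 + 2)) := by
              refine mul_le_mul_of_nonneg_right (hzn.trans ?_) (by positivity)
              rw [← hA3]; exact hwL
          _ = 6 * L⁻¹ * (L ^ (-(A1 + 2)) * L ^ (A1 + 2)) := by ring
          _ = 6 * L⁻¹ := by rw [← Real.rpow_add hL0, neg_add_cancel, Real.rpow_zero, mul_one]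
          _ ≤ 1 := by linarith
      calc ‖(1 / 2 + t * I : ℂ) - s‖ * (‖deriv riemannZeta s‖ + ‖(1 / 2 + t * I : ℂ) - s‖ *
            (3 * L ^ A1 / (1 / (2 * L)) ^ 2)) ≤ w * (L ^ (1 / 2 + e) + L ^ (1 / 2 + e)) := by
              refine mul_le_mul hzn (add_le_add h2 (h3.trans hP)) (by positivity) hwpos.le
        _ = δ := by rw [hw]; field_simp; ring)
    hfin
  rw [Finset.card_image_of_injOn (fun x hx y hy h => hinj x (Finset.mem_filter.1 hx).1 y
      (Finset.mem_filter.1 hy).1 h)] at hmain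
  refine le_trans ?_ hmain
  calc δ * (T * L ^ (1 / 4 - ε)) ≤ δ * (T * (L ^ (1 / 4 - 3 * e))) := by
        have : L ^ (1 / 4 - ε) ≤ L ^ (1 / 4 - 3 * e) := Real.rpow_le_rpow_of_exponent_le hL1 (by linarith)
        exact mul_le_mul_of_nonneg_left (mul_le_mul_of_nonneg_left this hT0.le) hδ0.le
    _ ≤ δ * (T * (L ^ (1 / 4 - 2 * e) / 2)) := by
        have h1 : L ^ (1 / 4 - 2 * e) = L ^ (1 / 4 - 3 * e) * L ^ e := by
          rw [← Real.rpow_add hL0]; congr 1; ring
        have h2 : 0 < L ^ (1 / 4 - 3 * e) := Real.rpow_pos_of_pos hL0 _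
        have h3 : L ^ (1 / 4 - 3 * e) ≤ L ^ (1 / 4 - 2 * e) / 2 := by rw [h1]; nlinarith
        gcongr
    _ = T * L ^ (3 / 4 - e) / 2 * (2 * w) := by
        have h1 : L ^ (3 / 4 - e) = L ^ (1 / 4 - 2 * e) * L ^ (1 / 2 + e) := by
          rw [← Real.rpow_add hL0]; congr 1; ring
        rw [h1, hw]
        field_simp
    _ ≤ (Gd.card : ℝ) * (2 * w) := by gcongr

end Pool.Agent.H362.SV
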