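import Pool.Agent.H362.LD.Main

set_option autoImplicit false

/-! # Small values of zeta near the zeros with a small derivative -/

namespace Pool.Agent.H362.SV

open Filter Topology MeasureTheory Complex Metric
open Pool.Agent.H362.LD (Sz Sz_finite unif t_ZUP)

/-- a function near a zero -/
lemma near {f : ℂ → ℂ} {c z : ℂ} {R M : ℝ} (hR : 0 < R) (hM : 0 < M) (hd : DifferentiableOn ℂ f (ball c R))
    (hf : ∀ w ∈ ball c R, ‖f w‖ ≤ M) (h0 : f c = 0) (hz : z ∈ ball c R) :
    ‖f z‖ ≤ ‖z - c‖ * (‖deriv f c‖ + ‖z - c‖ * (3 * M / R ^ 2)) := by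
  have hnhds : ball c R ∈ 𝓝 c := ball_mem_nhds c hR
  have hc : c ∈ ball c R := mem_ball_self hR
  have h1 : ∀ w ∈ ball c R, ‖dslope f c w‖ ≤ M / R := fun w hw =>
    Complex.norm_dslope_le_div_of_mapsTo_ball hd (fun x hx => by
      rw [h0, mem_closedBall_zero_iff]; exact hf x hx) hw
  have hdg : DifferentiableOn ℂ (dslope f c) (ball c R) := (Complex.differentiableOn_dslope hnhds).2 hd
  have hMR : 0 < M / R := by positivity
  have h2 : ‖dslope (dslope f c) c z‖ ≤ (3 * (M / R)) / R :=
    Complex.norm_dslope_le_div_of_mapsTo_ball hdg (fun x hx => by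
      rw [mem_closedBall, dist_eq_norm]
      calc ‖dslope f c x - dslope f c c‖ ≤ ‖dslope f c x‖ + ‖dslope f c c‖ := norm_sub_le _ _
        _ ≤ M / R + M / R := add_le_add (h1 x hx) (h1 c hc)
        _ ≤ 3 * (M / R) := by linarith) hz
  have h3 : f z = (z - c) * dslope f c z := by
    have := sub_smul_dslope f c z
    rw [h0, sub_zero, smul_eq_mul] at this
    exact this.symm
  have h4 : dslope f c z = deriv f c + (z - c) * dslope (dslope f c) c z := by
    have := sub_smul_dslope (dslope f c) c z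
    rw [smul_eq_mul, dslope_same] at this
    rw [this]; ring
  rw [h3, norm_mul]
  refine mul_le_mul_of_nonneg_left ?_ (norm_nonneg _)
  rw [h4]
  refine (norm_add_le _ _).trans ?_
  rw [norm_mul]
  have h5 : (3 * (M / R)) / R = 3 * M / R ^ 2 := by field_simp
  rw [h5] at h2
  gcongr

/-- disjoint intervals around separated points -/
lemma sep_volume {S : Finset ℝ} {w D : ℝ} (hw : 0 < w) (hD : 2 * w < D)
    (hsep : ∀ x ∈ S, ∀ y ∈ S, x ≠ y → D ≤ |x - y|) {B : Set ℝ} (hB : ∀ x ∈ S, Set.Icc (x - w) (x + w) ⊆ B)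
    (hfin : volume B ≠ ⊤) : (S.card : ℝ) * (2 * w) ≤ volume.real B := by
  have hdisj : Set.PairwiseDisjoint (S : Set ℝ) fun x => Set.Icc (x - w) (x + w) := by
    intro x hx y hy hxy
    rw [Function.onFun, Set.disjoint_left]
    intro t h1 h2
    have h3 := hsep x hx y hy hxy
    have h4 : |x - y| ≤ 2 * w := by
      rw [abs_le]
      constructor
      · linarith [h1.1, h1.2, h2.1, h2.2]
      · linarith [h1.1, h1.2, h2.1, h2.2]
    linarith
  have h1 : volume.real (⋃ x ∈ S, Set.Icc (x - w) (x + w)) = ∑ x ∈ S, volume.real (Set.Icc (x - w) (x + w)) := by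
    rw [measureReal_def, measure_biUnion_finset hdisj (fun x _ => measurableSet_Icc), ENNReal.toReal_sum]
    · rfl
    · intro x _
      exact measure_Icc_lt_top.ne
  have h2 : ∑ x ∈ S, volume.real (Set.Icc (x - w) (x + w)) = (S.card : ℝ) * (2 * w) := by
    rw [Finset.sum_congr rfl (fun x _ => ?_), Finset.sum_const, nsmul_eq_mul]
    rw [Real.volume_real_Icc_of_le (by linarith)]
    ring
  rw [← h2, ← h1]
  exact measureReal_mono (Set.iUnion₂_subset hB) hfin

end Pool.Agent.H362.SV
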