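import Pool.Agent.H362.SV.Cnt
import Pool.Agent.H362.LD.Ew2

set_option autoImplicit false

/-! # Negative moments of zeta on the critical line -/

namespace Pool.Agent.H362.SV

open Filter Topology MeasureTheory Complex Metric
open Pool.Agent.H362.LD (ew2 line_countable)

lemma cont_line : Continuous fun t : ℝ => riemannZeta (1 / 2 + t * I) := by
  rw [continuous_iff_continuousAt]
  intro t
  have h1 : (1 / 2 + t * I : ℂ) ≠ 1 := by
    intro h
    have := congrArg Complex.re h
    simp at this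
  have h2 : ContinuousAt (fun t : ℝ => (1 / 2 + t * I : ℂ)) t := by fun_prop
  exact ContinuousAt.comp (g := riemannZeta) (f := fun t : ℝ => (1 / 2 + t * I : ℂ))
    (differentiableAt_riemannZeta h1).continuousAt h2

/-- from the set where zeta has a given size -/
lemma moment_far {ε : ℝ} (hε : 0 < ε) (hε1 : ε ≤ 1 / 2) : ∀ᶠ T : ℝ in atTop, ∀ a : ℝ, 0 ≤ a → a < 1 →
    ENNReal.ofReal (T * Real.log T ^ (a ^ 2 / 4 - 2 * ε)) ≤
      ∫⁻ t in Set.Icc T (2 * T), ENNReal.ofReal (‖riemannZeta (1 / 2 + t * I)‖ ^ (-a)) := by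
  obtain ⟨d, hd, h⟩ := ew2 ε hε hε1
  obtain ⟨e, he, h⟩ := h 1
  filter_upwards [h, eventually_ge_atTop (1:ℝ), Real.tendsto_log_atTop.eventually_ge_atTop 1] with T hT hT1 hL1
  intro a ha0 ha1
  obtain ⟨r, E, -, -, hE1, hE2, hE3, hE4⟩ := hT (-a / 2) (by rw [abs_le]; constructor <;> linarith)
  have hL0 : 0 < Real.log T := by linarith
  have hEtop : volume E ≠ ⊤ := measure_ne_top_of_subset hE2 measure_Icc_lt_top.ne
  calc ENNReal.ofReal (T * Real.log T ^ (a ^ 2 / 4 - 2 * ε)) ≤
        ENNReal.ofReal (Real.log T ^ (a ^ 2 / 2 - ε)) * volume E := by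
          rw [← ENNReal.ofReal_toReal hEtop, ← ENNReal.ofReal_mul (by positivity)]
          refine ENNReal.ofReal_le_ofReal ?_
          have h1 : T * Real.log T ^ (a ^ 2 / 4 - 2 * ε) =
              Real.log T ^ (a ^ 2 / 2 - ε) * (T * Real.log T ^ (-(-a / 2) ^ 2 - ε)) := by
            have : Real.log T ^ (a ^ 2 / 4 - 2 * ε) =
                Real.log T ^ (a ^ 2 / 2 - ε) * Real.log T ^ (-(-a / 2) ^ 2 - ε) := by
              rw [← Real.rpow_add hL0]; congr 1; ring
            rw [this]; ring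
          rw [h1]
          exact mul_le_mul_of_nonneg_left hE3 (by positivity)
    _ = ∫⁻ _ in E, ENNReal.ofReal (Real.log T ^ (a ^ 2 / 2 - ε)) := by
          rw [setLIntegral_const]
    _ ≤ ∫⁻ t in E, ENNReal.ofReal (‖riemannZeta (1 / 2 + t * I)‖ ^ (-a)) := by
          refine setLIntegral_mono' hE1 fun t ht => ENNReal.ofReal_le_ofReal ?_
          obtain ⟨-, h1, h2, -⟩ := hE4 t ht
          have h3 : 0 < ‖riemannZeta (1 / 2 + t * I)‖ := lt_of_lt_of_le (Real.rpow_pos_of_pos hL0 _) h1
          calc Real.log T ^ (a ^ 2 / 2 - ε) ≤ Real.log T ^ ((-a / 2 + ε) * (-a)) :=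
                Real.rpow_le_rpow_of_exponent_le hL1 (by nlinarith)
            _ = (Real.log T ^ (-a / 2 + ε)) ^ (-a) := by rw [Real.rpow_mul hL0.le]
            _ ≤ ‖riemannZeta (1 / 2 + t * I)‖ ^ (-a) :=
                Real.rpow_le_rpow_of_nonpos h3 h2 (by linarith)
    _ ≤ _ := lintegral_mono_set hE2

/-- from the set where zeta is small -/
lemma moment_near : ∃ C : ℝ, 0 < C ∧ ∀ ε : ℝ, 0 < ε → ∀ᶠ T : ℝ in atTop, ∀ a : ℝ, 1 / 2 ≤ a → a < 1 →
    ENNReal.ofReal (T * Real.log T ^ (1 / 4 - ε - C * (1 - a)) / (8 * (1 - a))) ≤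
      ∫⁻ t in Set.Icc T (2 * T), ENNReal.ofReal (‖riemannZeta (1 / 2 + t * I)‖ ^ (-a)) := by
  obtain ⟨C, hC, h⟩ := small
  refine ⟨C, hC, fun ε hε => ?_⟩
  filter_upwards [h ε hε, eventually_ge_atTop (1:ℝ), Real.tendsto_log_atTop.eventually_ge_atTop 1] with T hT hT1 hL1
  intro a ha0 ha1
  have hL0 : 0 < Real.log T := by linarith
  set μ : Measure ℝ := volume.restrict (Set.Icc T (2 * T)) with hμ
  set f : ℝ → ℝ := fun t => ‖riemannZeta (1 / 2 + t * I)‖⁻¹ with hf
  have hfm : Measurable f := cont_line.norm.measurable.inv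
  have h1 : ∫⁻ t in Set.Icc T (2 * T), ENNReal.ofReal (‖riemannZeta (1 / 2 + t * I)‖ ^ (-a)) =
      ∫⁻ t, ENNReal.ofReal (f t ^ a) ∂μ := by
    refine lintegral_congr fun t => ?_
    rw [hf]
    beta_reduce
    rw [Real.rpow_neg (norm_nonneg _), Real.inv_rpow (norm_nonneg _)]
  rw [h1, lintegral_rpow_eq_lintegral_meas_lt_mul μ (Eventually.of_forall fun t => by
    rw [hf]; exact inv_nonneg.2 (norm_nonneg _)) hfm.aemeasurable (show (0:ℝ) < a by linarith)]
  set x0 : ℝ := Real.log T ^ C with hx0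
  have hx0p : 0 < x0 := Real.rpow_pos_of_pos hL0 _
  set c0 : ℝ := T * Real.log T ^ (1 / 4 - ε) / 2 with hc0
  have hc0p : 0 < c0 := by positivity
  have hzero : volume {t : ℝ | riemannZeta (1 / 2 + t * I) = 0} = 0 := line_countable.measure_zero _
  have key : ∀ x ∈ Set.Ioi x0, ENNReal.ofReal (c0 * x ^ (a - 2)) ≤ μ {t | x < f t} * ENNReal.ofReal (x ^ (a - 1)) := by
    intro x hx
    have hx : x0 < x := hx
    have hxp : 0 < x := hx0p.trans hx
    have h2 := hT (1 / (2 * x)) (by positivity) (by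
      rw [Real.rpow_neg hL0.le, ← hx0, inv_eq_one_div]
      exact one_div_le_one_div_of_le hx0p (by linarith))
    have h3 : volume {t : ℝ | t ∈ Set.Icc T (2 * T) ∧ ‖riemannZeta (1 / 2 + t * I)‖ ≤ 1 / (2 * x)} ≤
        μ {t | x < f t} := by
      rw [hμ, Measure.restrict_apply (measurableSet_lt measurable_const hfm)]
      calc volume {t : ℝ | t ∈ Set.Icc T (2 * T) ∧ ‖riemannZeta (1 / 2 + t * I)‖ ≤ 1 / (2 * x)} ≤
            volume (({t | x < f t} ∩ Set.Icc T (2 * T)) ∪ {t : ℝ | riemannZeta (1 / 2 + t * I) = 0}) := by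
              refine measure_mono fun t ht => ?_
              by_cases h0 : riemannZeta (1 / 2 + t * I) = 0
              · exact Or.inr h0
              · refine Or.inl ⟨?_, ht.1⟩
                have h4 : 0 < ‖riemannZeta (1 / 2 + t * I)‖ := norm_pos_iff.2 h0
                show x < ‖riemannZeta (1 / 2 + t * I)‖⁻¹
                rw [lt_inv_comm₀ hxp h4]
                refine lt_of_le_of_lt ht.2 ?_
                rw [inv_eq_one_div]
                exact one_div_lt_one_div_of_lt hxp (by linarith)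
        _ ≤ volume ({t | x < f t} ∩ Set.Icc T (2 * T)) + volume {t : ℝ | riemannZeta (1 / 2 + t * I) = 0} :=
              measure_union_le _ _
        _ = _ := by rw [hzero, add_zero]
    have hfin : volume {t : ℝ | t ∈ Set.Icc T (2 * T) ∧ ‖riemannZeta (1 / 2 + t * I)‖ ≤ 1 / (2 * x)} ≠ ⊤ :=
      measure_ne_top_of_subset (fun t ht => ht.1) measure_Icc_lt_top.ne
    have h4 : ENNReal.ofReal (c0 / x) ≤ μ {t | x < f t} := by
      refine le_trans ?_ h3
      rw [← ENNReal.ofReal_toReal hfin]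
      refine ENNReal.ofReal_le_ofReal (le_trans (le_of_eq ?_) h2)
      rw [hc0]; field_simp
    calc ENNReal.ofReal (c0 * x ^ (a - 2)) = ENNReal.ofReal (c0 / x) * ENNReal.ofReal (x ^ (a - 1)) := by
          rw [← ENNReal.ofReal_mul (by positivity)]
          congr 1
          have : x ^ (a - 2) = x ^ (a - 1) / x := by
            rw [← Real.rpow_sub_one hxp.ne']; congr 1; ring
          rw [this]; ring
      _ ≤ _ := mul_le_mul_left h4 _
  calc ENNReal.ofReal (T * Real.log T ^ (1 / 4 - ε - C * (1 - a)) / (8 * (1 - a))) ≤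
        ENNReal.ofReal a * ENNReal.ofReal (c0 * (x0 ^ (a - 1) / (1 - a))) := by
          rw [← ENNReal.ofReal_mul (by linarith)]
          refine ENNReal.ofReal_le_ofReal ?_
          have e1 : x0 ^ (a - 1) = Real.log T ^ (C * (a - 1)) := by rw [hx0, Real.rpow_mul hL0.le]
          have e2 : Real.log T ^ (1 / 4 - ε - C * (1 - a)) =
              Real.log T ^ (1 / 4 - ε) * Real.log T ^ (C * (a - 1)) := by
            rw [← Real.rpow_add hL0]; congr 1; ring
          rw [e1, e2, hc0]
          have p1 : 0 < Real.log T ^ (1 / 4 - ε) := Real.rpow_pos_of_pos hL0 _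
          have p2 : 0 < Real.log T ^ (C * (a - 1)) := Real.rpow_pos_of_pos hL0 _
          have p3 : 0 < 1 - a := by linarith
          have p4 : 0 < T * (Real.log T ^ (1 / 4 - ε) * Real.log T ^ (C * (a - 1))) / (1 - a) := by positivity
          calc T * (Real.log T ^ (1 / 4 - ε) * Real.log T ^ (C * (a - 1))) / (8 * (1 - a)) =
                (1 / 8) * (T * (Real.log T ^ (1 / 4 - ε) * Real.log T ^ (C * (a - 1))) / (1 - a)) := by
                  field_simp
            _ ≤ (a / 2) * (T * (Real.log T ^ (1 / 4 - ε) * Real.log T ^ (C * (a - 1))) / (1 - a)) := by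
                  exact mul_le_mul_of_nonneg_right (by linarith) p4.le
            _ = _ := by field_simp
    _ = ENNReal.ofReal a * ∫⁻ x in Set.Ioi x0, ENNReal.ofReal (c0 * x ^ (a - 2)) := by
          congr 1
          rw [← ofReal_integral_eq_lintegral_ofReal]
          · rw [integral_const_mul, integral_Ioi_rpow_of_lt (by linarith) hx0p]
            congr 2
            have : a - 2 + 1 = a - 1 := by ring
            rw [this]
            have h5 : a - 1 ≠ 0 := by linarith
            have h6 : 1 - a ≠ 0 := by linarith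
            field_simp
            ring
          · exact (integrableOn_Ioi_rpow_of_lt (by linarith) hx0p).const_mul c0
          · refine (ae_restrict_iff' measurableSet_Ioi).2 (Eventually.of_forall fun x hx => ?_)
            have hx : x0 < x := hx
            have hxp : 0 < x := hx0p.trans hx
            show 0 ≤ c0 * x ^ (a - 2)
            positivity
    _ ≤ ENNReal.ofReal a * ∫⁻ x in Set.Ioi x0, μ {t | x < f t} * ENNReal.ofReal (x ^ (a - 1)) := by
          gcongr 1
          exact setLIntegral_mono' measurableSet_Ioi key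
    _ ≤ _ := by
          gcongr 1
          exact lintegral_mono_set (Set.Ioi_subset_Ioi hx0p.le)

/-- **negative moments up to the pole** -/
theorem moment {ε : ℝ} (hε : 0 < ε) : ∀ᶠ T : ℝ in atTop, ∀ s : ℝ, -1 < s → s ≤ 0 →
    ENNReal.ofReal (T * Real.log T ^ (s ^ 2 / 4 - ε) / (1 + s)) ≤
      ∫⁻ t in Set.Icc T (2 * T), ENNReal.ofReal (‖riemannZeta (1 / 2 + t * I)‖ ^ s) := by
  obtain ⟨C, hC, hn⟩ := moment_near
  set e : ℝ := min (ε / 3) (1 / 2) with he
  have he0 : 0 < e := lt_min (by positivity) (by norm_num)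
  have he1 : 3 * e ≤ ε := by have := min_le_left (ε / 3) (1 / 2 : ℝ); rw [← he] at this; linarith
  have he2 : e ≤ 1 / 2 := min_le_right _ _
  set C1 : ℝ := max C 1 with hC1
  have hC1a : C ≤ C1 := le_max_left _ _
  have hC1b : 1 ≤ C1 := le_max_right _ _
  filter_upwards [hn e he0, moment_far he0 he2, eventually_ge_atTop (1:ℝ),
    Real.tendsto_log_atTop.eventually_ge_atTop 1, log_le_small (c := max 8 (C1 / e)) (a := e)
      (lt_max_of_lt_left (by norm_num)) he0] with T h1 h2 hT1 hL1 hbig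
  intro s hs0 hs1
  have hL0 : 0 < Real.log T := by linarith
  have hb1 : 8 ≤ Real.log T ^ e := (le_max_left _ _).trans hbig
  have hb2 : C1 / e ≤ Real.log T ^ e := (le_max_right _ _).trans hbig
  have hs : 0 < 1 + s := by linarith
  by_cases hc : 1 + s ≤ e / C1
  · have hsa : 1 / 2 ≤ -s := by
      have : e / C1 ≤ 1 / 2 := by
        rw [div_le_iff₀ (by linarith)]
        nlinarith
      linarith
    have h3 := h1 (-s) hsa (by linarith)
    rw [neg_neg] at h3
    refine le_trans (ENNReal.ofReal_le_ofReal ?_) h3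
    have e1 : (1:ℝ) - -s = 1 + s := by ring
    rw [e1]
    have h4 : C * (1 + s) ≤ e := by
      calc C * (1 + s) ≤ C1 * (e / C1) := mul_le_mul hC1a hc hs.le (by linarith)
        _ = e := by field_simp
    have h5 : Real.log T ^ (s ^ 2 / 4 - ε) * 8 ≤ Real.log T ^ (1 / 4 - e - C * (1 + s)) := by
      calc Real.log T ^ (s ^ 2 / 4 - ε) * 8 ≤ Real.log T ^ (s ^ 2 / 4 - ε) * Real.log T ^ e := by gcongr
        _ = Real.log T ^ (s ^ 2 / 4 - ε + e) := by rw [← Real.rpow_add hL0]
        _ ≤ _ := Real.rpow_le_rpow_of_exponent_le hL1 (by nlinarith)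
    rw [div_le_div_iff₀ hs (by positivity)]
    calc T * Real.log T ^ (s ^ 2 / 4 - ε) * (8 * (1 + s)) = T * (Real.log T ^ (s ^ 2 / 4 - ε) * 8) * (1 + s) := by ring
      _ ≤ T * Real.log T ^ (1 / 4 - e - C * (1 + s)) * (1 + s) := by gcongr
  · push Not at hc
    have h3 := h2 (-s) (by linarith) (by linarith)
    rw [neg_neg] at h3
    refine le_trans (ENNReal.ofReal_le_ofReal ?_) h3
    rw [neg_sq, div_le_iff₀ hs, mul_assoc]
    refine mul_le_mul_of_nonneg_left ?_ (by linarith)
    have h4 : 1 ≤ Real.log T ^ e * (1 + s) := by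
      calc (1:ℝ) = C1 / e * (e / C1) := by field_simp
        _ ≤ Real.log T ^ e * (1 + s) := mul_le_mul hb2 hc.le (by positivity) (by positivity)
    calc Real.log T ^ (s ^ 2 / 4 - ε) ≤ Real.log T ^ (s ^ 2 / 4 - 3 * e) :=
          Real.rpow_le_rpow_of_exponent_le hL1 (by linarith)
      _ ≤ Real.log T ^ (s ^ 2 / 4 - 3 * e) * (Real.log T ^ e * (1 + s)) :=
          le_mul_of_one_le_right (by positivity) h4
      _ = Real.log T ^ (s ^ 2 / 4 - 2 * e) * (1 + s) := by
          rw [← mul_assoc, ← Real.rpow_add hL0]; congr 2; ring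

end Pool.Agent.H362.SV
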